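import Mathlib
import Pool.Agent.H32.ScribDefs
import Pool.Agent.H32.ScribFinal

/-!
# Strong (i,j)-scribability fails for stacked polytopes whenever `j ≤ d - 3`

For every `d` and all `0 ≤ i < j ≤ d - 3` there is a stacked `d`-polytope none of whose
realizations is strongly `(i,j)`-scribed.

Idea of the proof.  Take a complete tree of stackings of depth `D` over a facet of a simplex.
For a facet `F` of some stage, with unit outward Lorentz normal `n_F`, let
`W(F) = ∑_{R ⊂ F ridge} ∠(n_F, m_R)`, where `m_R` is a fixed unit normal of the final polytope at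
the ridge `R`; trivially `W(F) ≤ d π`.  If `v` is stacked onto `F`, with new facets `F_b`, then
* `(d-3)`-faces cut the sphere, so the normals satisfy the spherical triangle inequality
  `∠(n_b,n_c) ≤ ∠(n_b,n_F) + ∠(n_F,n_c)`;
* `v` strongly avoids the sphere, so some angle `∠(n_b,n_c)` exceeds `π/2`;
* angles around a ridge are additive, which gives `∑_b W(F_b) ≤ (d-1) W(F)`.
Hence `W(F) ≥ (π/2) (d/(d-1))^(D-1)`, a contradiction for large `D`.
-/

namespace Pool.Agent.Results.MP_55faa6_co.NotScribable

open Pool.Agent.H32.Scrib

/-- For all `0 ≤ i < j ≤ d - 3` there is a stacked `d`-polytope (realized by a cone `K`) such that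
no realization `K'` with the same face lattice is strongly `(i,j)`-scribed. -/
theorem result (d i j : ℕ) (hij : i < j) (hj : j + 3 ≤ d) :
    ∃ K : Set (E d), Stacked d K ∧ IsRealization K ∧
      ∀ K' : Set (E d), IsRealization K' → CombEquiv K K' → ¬ Scribed i j K' :=
  main d i j hij hj

end Pool.Agent.Results.MP_55faa6_co.NotScribable
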